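import Pool.Agent.H89.MonoDom

set_option autoImplicit false
open scoped RealInnerProductSpace

namespace Pool.Agent.Results.MP_597c46_an.MaxMono

theorem result (n : ℕ) (hn : 2 ≤ n) :
    ∃ C : Set (EuclideanSpace ℝ (Fin n)), C.Nonempty ∧ Convex ℝ C ∧
      ∀ A : EuclideanSpace ℝ (Fin n) → Set (EuclideanSpace ℝ (Fin n)),
        (∀ x y, ∀ u ∈ A x, ∀ v ∈ A y, 0 ≤ ⟪u - v, x - y⟫) →
        (∀ B : EuclideanSpace ℝ (Fin n) → Set (EuclideanSpace ℝ (Fin n)),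
          (∀ x y, ∀ u ∈ B x, ∀ v ∈ B y, 0 ≤ ⟪u - v, x - y⟫) → (∀ x, A x ⊆ B x) → B = A) →
        {x | (A x).Nonempty} ≠ C ∧ (⋃ x, A x) ≠ C := by
  obtain ⟨C, hne, hc, hC⟩ := Pool.Agent.H89.MonoDom.exists_convex n hn
  exact ⟨C, hne, hc, fun A hA hmax => Pool.Agent.H89.MonoDom.maxmono n C hC A hA hmax⟩

end Pool.Agent.Results.MP_597c46_an.MaxMono
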